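import Pool.Agent.TH116.SC.Basic

/-!
# Zeros of ζ and poles at `s = 1` in the Selberg class: errors sublinear in the degree
-/

namespace Pool.Agent.Results.MP_995735_nt.SublinearOrders

open Pool.Agent.TH116.SC Filter Topology

lemma analyticOnNhd_zeta : AnalyticOnNhd ℂ riemannZeta {1}ᶜ := by
  refine DifferentiableOn.analyticOnNhd (fun s hs => ?_) isOpen_compl_singleton
  exact (differentiableAt_riemannZeta hs).differentiableWithinAt

lemma zeta_order_ne_top {ρ : ℂ} (hρ : ρ ≠ 1) : analyticOrderAt riemannZeta ρ ≠ ⊤ := by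
  intro h
  rw [analyticOrderAt_eq_top] at h
  have hconn : IsPreconnected ({1}ᶜ : Set ℂ) :=
    (isConnected_compl_singleton_of_one_lt_rank (by simp) (1 : ℂ)).isPreconnected
  have h2 := analyticOnNhd_zeta.eqOn_zero_of_preconnected_of_eventuallyEq_zero hconn hρ h
  have h3 : riemannZeta 2 = 0 := h2 (by simp : (2 : ℂ) ∈ ({1}ᶜ : Set ℂ))
  exact riemannZeta_ne_zero_of_one_le_re (by norm_num) h3

/-- Let `F` run over the elements of the Selberg class with a pole of order exactly `r = F.m` at
`s = 1`. Every zero of ζ of multiplicity `μ` is a zero of each `F` of multiplicity at least `r μ` if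
and only if, for every zero `ρ` of ζ and every `ε > 0`, there is `C` with
`r μ ≤ ord_ρ(F) + ε d_F + C` for all `F`. -/
theorem result :
    (∀ F : SelbergFn, F.E 1 ≠ 0 → ∀ ρ : ℂ, riemannZeta ρ = 0 →
      (F.m : ℕ∞) * analyticOrderAt riemannZeta ρ ≤ analyticOrderAt F.E ρ) ↔
    ∀ ρ : ℂ, riemannZeta ρ = 0 → ∀ ε : ℝ, 0 < ε → ∃ C : ℝ, ∀ F : SelbergFn, F.E 1 ≠ 0 →
      ∀ μ v : ℕ, analyticOrderAt riemannZeta ρ = μ → analyticOrderAt F.E ρ = v →
        (F.m : ℝ) * μ ≤ v + ε * F.degree + C := by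
  constructor
  · intro h ρ hρ ε hε
    refine ⟨0, fun F hF μ v hμ hv => ?_⟩
    have h1 := h F hF ρ hρ
    rw [hμ, hv] at h1
    have h2 : F.m * μ ≤ v := by exact_mod_cast h1
    have h3 : (F.m : ℝ) * μ ≤ v := by exact_mod_cast h2
    have h4 := mul_nonneg hε.le F.degree_nonneg
    linarith
  · intro h F hF ρ hρ
    have hρ1 : ρ ≠ 1 := by
      rintro rfl
      exact riemannZeta_ne_zero_of_one_le_re (by norm_num) hρ
    obtain ⟨μ, hμ⟩ := ENat.ne_top_iff_exists.1 (zeta_order_ne_top hρ1)
    by_cases hv : analyticOrderAt F.E ρ = ⊤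
    · rw [hv]
      exact le_top
    obtain ⟨v, hv⟩ := ENat.ne_top_iff_exists.1 hv
    rw [← hμ, ← hv]
    suffices hs : F.m * μ ≤ v by exact_mod_cast hs
    have hd := F.degree_nonneg
    -- the inequality for all powers of `F`
    have key : ∀ ε : ℝ, 0 < ε → (F.m : ℝ) * μ ≤ v + ε * F.degree := by
      intro ε hε
      obtain ⟨C, hC⟩ := h ρ hρ ε hε
      by_contra hcon
      rw [not_le] at hcon
      obtain ⟨n, hn⟩ := exists_nat_gt (C / ((F.m : ℝ) * μ - (v + ε * F.degree)))
      rw [div_lt_iff₀ (by linarith)] at hn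
      have h1 := hC (F.pow n) (by rw [F.E_pow]; simpa using pow_ne_zero (n + 1) hF) μ ((n + 1) * v)
        hμ.symm (by
          rw [F.E_pow, analyticOrderAt_pow (F.entire.analyticAt ρ), ← hv]
          push_cast
          simp)
      rw [F.m_pow, F.degree_pow] at h1
      push_cast at h1
      nlinarith
    by_contra hcon
    rw [not_le] at hcon
    have h1 : (v : ℝ) + 1 ≤ F.m * μ := by exact_mod_cast hcon
    have h2 := key (1 / (2 * (F.degree + 1))) (by positivity)
    have h3 : 1 / (2 * (F.degree + 1)) * F.degree ≤ 1 / 2 := by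
      rw [div_mul_eq_mul_div, one_mul, div_le_div_iff₀ (by positivity) (by norm_num)]
      linarith
    linarith

end Pool.Agent.Results.MP_995735_nt.SublinearOrders
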